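import Pool.Agent.PDN.Stmts

/-!
# Row SAR: the arithmetic of the sufficiency
-/

set_option autoImplicit false

namespace Pool.Agent.PDN.H15

open Finset

/-- General form: `K` larger than the sum, scale `M`, apexes `M X`. -/
def SarGStmt : Prop :=
  ∀ (n K M X : ℕ) (a : Fin n → ℕ), 1 ≤ n → ∑ i, a i < K → 4 ≤ M → 4 * n + 2 ≤ M * X →
    ∀ S : Finset (Fin n), ∑ i ∈ S, a i = ∑ i ∈ Sᶜ, a i →
    ∃ (y : ℕ) (e : ℕ → ℕ), 3 ≤ 2 * n + y ∧
      Multiset.replicate 2 (2 * n + y + (2 * n - 1)) +
        (Multiset.range (2 * n)).map (fun j => 4 + (if 0 < j then e (j - 1) else 0) +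
          (if j + 1 < 2 * n then e j else 0)) +
        Multiset.replicate (y + ∑ j ∈ Finset.range (2 * n - 1), (e j + 1)) 4 =
      (let b := Finset.univ.val.map (fun i => M * (K + a i)) + Multiset.replicate n (M * K) +
        Multiset.replicate 2 (M * X); b + Multiset.replicate (b.sum / 2 - 6 * n) 4)

theorem map_eq_sum {ι α : Type} (s : Finset ι) (f : ι → α) :
    s.val.map f = ∑ i ∈ s, ({f i} : Multiset α) := by
  have h : (∑ i ∈ s, ({f i} : Multiset α)) = ((s.val.map f).map fun a => ({a} : Multiset α)).sum := by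
    rw [Multiset.map_map]
    rfl
  rw [h, Multiset.sum_map_singleton]

theorem sum_range_two_mul {α : Type} [AddCommMonoid α] (G : ℕ → α) (n : ℕ) :
    ∑ j ∈ Finset.range (2 * n), G j = ∑ i ∈ Finset.range n, (G (2 * i) + G (2 * i + 1)) := by
  induction n with
  | zero => simp
  | succ n ih =>
    rw [show 2 * (n + 1) = 2 * n + 1 + 1 by ring, Finset.sum_range_succ, Finset.sum_range_succ, ih,
      Finset.sum_range_succ, add_assoc]

/-- partial sums of a sequence which decreases and has the sum zero -/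
theorem partial_nonneg {n : ℕ} {g : ℕ → ℤ} (hg : ∀ i j, i ≤ j → j < n → g j ≤ g i)
    (h0 : ∑ i ∈ Finset.range n, g i = 0) {j : ℕ} (hj : j ≤ n) :
    0 ≤ ∑ i ∈ Finset.range j, g i := by
  rcases Nat.eq_zero_or_pos j with rfl | hj0
  · simp
  by_cases hc : 0 ≤ g (j - 1)
  · refine Finset.sum_nonneg fun i hi => ?_
    rw [Finset.mem_range] at hi
    exact hc.trans (hg i (j - 1) (by omega) (by omega))
  · push_neg at hc
    have h1 : ∑ i ∈ Finset.Ico j n, g i ≤ 0 := by
      refine Finset.sum_nonpos fun i hi => ?_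
      rw [Finset.mem_Ico] at hi
      exact (hg (j - 1) i (by omega) hi.2).trans hc.le
    have h2 := Finset.sum_range_add_sum_Ico g hj
    linarith

/-- the ordering -/
theorem exists_order (n K : ℕ) (a : Fin n → ℕ) (hK : ∑ i, a i < K) (S : Finset (Fin n))
    (hS : ∑ i ∈ S, a i = ∑ i ∈ Sᶜ, a i) :
    ∃ l r d : ℕ → ℕ,
      (∑ i ∈ Finset.range n, (({l i} : Multiset ℕ) + {r i}) =
        ∑ i : Fin n, (({K + a i} : Multiset ℕ) + {K})) ∧
      d 0 = 0 ∧ d n = 0 ∧ (∀ i < n, d (i + 1) + l i = d i + r i) ∧ (∀ i < n, d i < l i) := by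
  classical
  let A : Fin n → ℕ := fun i => if i ∈ S then K + a i else K
  let B : Fin n → ℕ := fun i => if i ∈ S then K else K + a i
  let B' : Fin n → ℕᵒᵈ := fun i => OrderDual.toDual (B i)
  have hl : Monotone (A ∘ Tuple.sort A) := Tuple.monotone_sort A
  have hr : Antitone (B ∘ Tuple.sort B') := fun i j hij => Tuple.monotone_sort B' hij
  have hAK : ∀ i, K ≤ A i := by
    intro i
    show K ≤ if i ∈ S then K + a i else K
    split_ifs <;> omega
  have hBK : ∀ i, K ≤ B i := by
    intro i
    show K ≤ if i ∈ S then K else K + a i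
    split_ifs <;> omega
  have hAs : ∑ i, A i = n * K + ∑ i ∈ S, a i := by
    have : ∀ i, A i = K + if i ∈ S then a i else 0 := by
      intro i
      show (if i ∈ S then K + a i else K) = _
      split_ifs <;> omega
    simp only [this]
    rw [Finset.sum_add_distrib, Finset.sum_ite_mem]
    simp
  have hBs : ∑ i, B i = n * K + ∑ i ∈ Sᶜ, a i := by
    have : ∀ i, B i = K + if i ∈ Sᶜ then a i else 0 := by
      intro i
      show (if i ∈ S then K else K + a i) = _
      by_cases h : i ∈ S <;> simp [h]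
    simp only [this]
    rw [Finset.sum_add_distrib, Finset.sum_ite_mem]
    simp
  let l : ℕ → ℕ := fun i => if h : i < n then A (Tuple.sort A ⟨i, h⟩) else 0
  let r : ℕ → ℕ := fun i => if h : i < n then B (Tuple.sort B' ⟨i, h⟩) else 0
  have hlF : ∀ i : Fin n, l i = A (Tuple.sort A i) := fun i => by
    show (if h : (i : ℕ) < n then A (Tuple.sort A ⟨i, h⟩) else 0) = _
    rw [dif_pos i.2]
  have hrF : ∀ i : Fin n, r i = B (Tuple.sort B' i) := fun i => by
    show (if h : (i : ℕ) < n then B (Tuple.sort B' ⟨i, h⟩) else 0) = _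
    rw [dif_pos i.2]
  have hls : ∑ i ∈ Finset.range n, l i = n * K + ∑ i ∈ S, a i := by
    rw [Finset.sum_range, ← hAs, ← Equiv.sum_comp (Tuple.sort A) A]
    exact Finset.sum_congr rfl fun i _ => hlF i
  have hrs : ∑ i ∈ Finset.range n, r i = n * K + ∑ i ∈ Sᶜ, a i := by
    rw [Finset.sum_range, ← hBs, ← Equiv.sum_comp (Tuple.sort B') B]
    exact Finset.sum_congr rfl fun i _ => hrF i
  have hlK : ∀ i < n, K ≤ l i := fun i hi => by
    rw [hlF ⟨i, hi⟩]
    exact hAK _
  have hrK : ∀ i < n, K ≤ r i := fun i hi => by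
    rw [hrF ⟨i, hi⟩]
    exact hBK _
  have hlm : ∀ i j, i ≤ j → j < n → l i ≤ l j := fun i j hij hj => by
    rw [hlF ⟨i, hij.trans_lt hj⟩, hlF ⟨j, hj⟩]
    exact hl (show (⟨i, hij.trans_lt hj⟩ : Fin n) ≤ ⟨j, hj⟩ from hij)
  have hrm : ∀ i j, i ≤ j → j < n → r j ≤ r i := fun i j hij hj => by
    rw [hrF ⟨i, hij.trans_lt hj⟩, hrF ⟨j, hj⟩]
    exact hr (show (⟨i, hij.trans_lt hj⟩ : Fin n) ≤ ⟨j, hj⟩ from hij)
  have htot : ∑ i ∈ Finset.range n, ((r i : ℤ) - l i) = 0 := by
    rw [Finset.sum_sub_distrib]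
    have h1 : (∑ i ∈ Finset.range n, (r i : ℤ)) = ((n * K + ∑ i ∈ Sᶜ, a i : ℕ) : ℤ) := by
      rw [← hrs]
      push_cast
      rfl
    have h2 : (∑ i ∈ Finset.range n, (l i : ℤ)) = ((n * K + ∑ i ∈ S, a i : ℕ) : ℤ) := by
      rw [← hls]
      push_cast
      rfl
    rw [h1, h2, hS, sub_self]
  have hD0 : ∀ j ≤ n, 0 ≤ ∑ i ∈ Finset.range j, ((r i : ℤ) - l i) := fun j hj =>
    partial_nonneg (fun i k hik hk => by
      have h1 := hlm i k hik hk
      have h2 := hrm i k hik hk
      omega) htot hj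
  have hDK : ∀ j ≤ n, ∑ i ∈ Finset.range j, ((r i : ℤ) - l i) < K := by
    intro j hj
    have h1 : ∑ i ∈ Finset.range j, ((r i : ℤ) - l i) ≤ ∑ i ∈ Finset.range j, ((r i : ℤ) - K) := by
      refine Finset.sum_le_sum fun i hi => ?_
      rw [Finset.mem_range] at hi
      have := hlK i (by omega)
      omega
    have h2 : ∑ i ∈ Finset.range j, ((r i : ℤ) - K) ≤ ∑ i ∈ Finset.range n, ((r i : ℤ) - K) := by
      refine Finset.sum_le_sum_of_subset_of_nonneg (Finset.range_mono hj) fun i hi _ => ?_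
      rw [Finset.mem_range] at hi
      have := hrK i hi
      omega
    have h3 : ∑ i ∈ Finset.range n, ((r i : ℤ) - K) = ((∑ i ∈ Sᶜ, a i : ℕ) : ℤ) := by
      rw [Finset.sum_sub_distrib]
      have h1 : (∑ i ∈ Finset.range n, (r i : ℤ)) = ((n * K + ∑ i ∈ Sᶜ, a i : ℕ) : ℤ) := by
        rw [← hrs]
        push_cast
        rfl
      rw [h1]
      simp
    have h4 : ∑ i ∈ Sᶜ, a i ≤ ∑ i, a i := Finset.sum_le_univ_sum_of_nonneg fun i => Nat.zero_le _
    rw [h3] at h2
    have : ((∑ i ∈ Sᶜ, a i : ℕ) : ℤ) < K := by exact_mod_cast h4.trans_lt hK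
    linarith
  refine ⟨l, r, fun j => (∑ i ∈ Finset.range j, ((r i : ℤ) - l i)).toNat, ?_, ?_, ?_, ?_, ?_⟩
  · rw [Finset.sum_range, Finset.sum_add_distrib]
    have h1 : ∑ i : Fin n, ({l i} : Multiset ℕ) = ∑ i : Fin n, {A i} := by
      rw [← Equiv.sum_comp (Tuple.sort A) fun i => ({A i} : Multiset ℕ)]
      exact Finset.sum_congr rfl fun i _ => by rw [hlF i]
    have h2 : ∑ i : Fin n, ({r i} : Multiset ℕ) = ∑ i : Fin n, {B i} := by
      rw [← Equiv.sum_comp (Tuple.sort B') fun i => ({B i} : Multiset ℕ)]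
      exact Finset.sum_congr rfl fun i _ => by rw [hrF i]
    rw [h1, h2, ← Finset.sum_add_distrib]
    refine Finset.sum_congr rfl fun i _ => ?_
    show ({if i ∈ S then K + a i else K} : Multiset ℕ) + {if i ∈ S then K else K + a i} = _
    by_cases h : i ∈ S
    · rw [if_pos h, if_pos h]
    · rw [if_neg h, if_neg h, add_comm]
  · simp
  · show (∑ i ∈ Finset.range n, ((r i : ℤ) - l i)).toNat = 0
    rw [htot]
    rfl
  · intro i hi
    have h1 := hD0 i hi.le
    have h2 := hD0 (i + 1) hi
    show (∑ i ∈ Finset.range (i + 1), ((r i : ℤ) - l i)).toNat + l i =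
      (∑ i ∈ Finset.range i, ((r i : ℤ) - l i)).toNat + r i
    rw [Finset.sum_range_succ] at h2 ⊢
    omega
  · intro i hi
    have h1 := hD0 i hi.le
    have h2 := hDK i hi.le
    have h3 := hlK i hi
    show (∑ i ∈ Finset.range i, ((r i : ℤ) - l i)).toNat < l i
    omega

theorem sarG : SarGStmt := by
  intro n K M X a hn hK hM hX S hS
  obtain ⟨l, r, d, hm, hd0, hdn, hd, hdl⟩ := exists_order n K a hK S hS
  -- `e (2 i) = M (l i - d i) - 4`, `e (2 i + 1) = M d (i + 1)`
  let e : ℕ → ℕ := fun j => if j % 2 = 0 then M * (l (j / 2) - d (j / 2)) - 4 else M * d (j / 2 + 1)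
  have he0 : ∀ i, e (2 * i) = M * (l i - d i) - 4 := fun i => by
    show (if (2 * i) % 2 = 0 then _ else _) = _
    rw [if_pos (by omega), show 2 * i / 2 = i by omega]
  have he1 : ∀ i, e (2 * i + 1) = M * d (i + 1) := fun i => by
    show (if (2 * i + 1) % 2 = 0 then _ else _) = _
    rw [if_neg (by omega), show (2 * i + 1) / 2 = i by omega]
  have hM4 : ∀ i < n, 4 ≤ M * (l i - d i) := fun i hi => by
    have h1 := hdl i hi
    calc 4 ≤ M * 1 := by omega
      _ ≤ _ := Nat.mul_le_mul_left _ (by omega)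
  have hF0 : ∀ i < n, 4 + (if 0 < 2 * i then e (2 * i - 1) else 0) +
      (if 2 * i + 1 < 2 * n then e (2 * i) else 0) = M * l i := by
    intro i hi
    rw [if_pos (show 2 * i + 1 < 2 * n by omega), he0]
    have h4 := hM4 i hi
    have h5 := hdl i hi
    have h6 : M * (l i - d i) + M * d i = M * l i := by
      rw [← mul_add]
      congr 1
      omega
    by_cases h : 0 < 2 * i
    · rw [if_pos h]
      obtain ⟨k, rfl⟩ : ∃ k, i = k + 1 := ⟨i - 1, by omega⟩
      rw [show 2 * (k + 1) - 1 = 2 * k + 1 by omega, he1]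
      omega
    · have : i = 0 := by omega
      subst this
      rw [if_neg h]
      rw [hd0] at h6 h4 ⊢
      omega
  have hF1 : ∀ i < n, 4 + (if 0 < 2 * i + 1 then e (2 * i + 1 - 1) else 0) +
      (if 2 * i + 1 + 1 < 2 * n then e (2 * i + 1) else 0) = M * r i := by
    intro i hi
    rw [if_pos (show 0 < 2 * i + 1 by omega), show 2 * i + 1 - 1 = 2 * i by omega, he0, he1]
    have h4 := hM4 i hi
    have h5 := hdl i hi
    have h7 := hd i hi
    have h6 : M * (l i - d i) + M * d (i + 1) = M * r i := by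
      rw [← mul_add]
      congr 1
      omega
    by_cases h : 2 * i + 1 + 1 < 2 * n
    · rw [if_pos h]
      omega
    · rw [if_neg h]
      have : i + 1 = n := by omega
      rw [this, hdn] at h6
      omega
  -- the sum of the `l`
  have hlsum : ∑ i ∈ Finset.range n, (l i + r i) = 2 * n * K + ∑ i, a i := by
    have h := congrArg Multiset.sum hm
    rw [Multiset.sum_sum, Multiset.sum_sum] at h
    simp only [Multiset.sum_add, Multiset.sum_singleton] at h
    rw [h, Finset.sum_add_distrib, Finset.sum_add_distrib]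
    simp
    ring
  have hrl : ∑ i ∈ Finset.range n, l i = ∑ i ∈ Finset.range n, r i := by
    have h1 : ∀ j ≤ n, d j + ∑ i ∈ Finset.range j, l i = ∑ i ∈ Finset.range j, r i := by
      intro j
      induction j with
      | zero => simp [hd0]
      | succ j ih =>
        intro hj
        rw [Finset.sum_range_succ, Finset.sum_range_succ]
        have := ih (by omega)
        have := hd j (by omega)
        omega
    have := h1 n le_rfl
    rw [hdn] at this
    omega
  have hesum : ∑ j ∈ Finset.range (2 * n - 1), (e j + 1) + 2 * n + 1 =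
      M * ∑ i ∈ Finset.range n, l i := by
    have h1 : ∑ j ∈ Finset.range (2 * n), (e j + 1) = ∑ j ∈ Finset.range (2 * n - 1), (e j + 1) + 1 := by
      obtain ⟨k, rfl⟩ : ∃ k, n = k + 1 := ⟨n - 1, by omega⟩
      rw [show 2 * (k + 1) = 2 * k + 1 + 1 by ring, Finset.sum_range_succ, he1, hdn]
      simp
    have h2 : ∑ j ∈ Finset.range (2 * n), (e j + 1) + 2 * n = M * ∑ i ∈ Finset.range n, r i := by
      rw [sum_range_two_mul, Finset.mul_sum]
      have h3 : ∀ i ∈ Finset.range n, M * r i = (e (2 * i) + 1 + (e (2 * i + 1) + 1)) + 2 := by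
        intro i hi
        rw [Finset.mem_range] at hi
        rw [he0, he1]
        have h4 := hM4 i hi
        have h5 := hdl i hi
        have h7 := hd i hi
        have h6 : M * (l i - d i) + M * d (i + 1) = M * r i := by
          rw [← mul_add]
          congr 1
          omega
        omega
      have h8 : ∑ i ∈ Finset.range n, ((e (2 * i) + 1 + (e (2 * i + 1) + 1)) + 2) =
          ∑ i ∈ Finset.range n, (e (2 * i) + 1 + (e (2 * i + 1) + 1)) + n * 2 := by
        rw [Finset.sum_add_distrib, Finset.sum_const, Finset.card_range, smul_eq_mul]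
      rw [Finset.sum_congr rfl h3, h8, mul_comm n 2]
    rw [hrl]
    omega
  refine ⟨M * X - (4 * n - 1), e, by omega, ?_⟩
  have hmap : (Multiset.range (2 * n)).map (fun j => 4 + (if 0 < j then e (j - 1) else 0) +
      (if j + 1 < 2 * n then e j else 0)) =
      Finset.univ.val.map (fun i => M * (K + a i)) + Multiset.replicate n (M * K) := by
    have h1 : (Multiset.range (2 * n)).map (fun j => 4 + (if 0 < j then e (j - 1) else 0) +
        (if j + 1 < 2 * n then e j else 0)) =
        ∑ j ∈ Finset.range (2 * n), ({4 + (if 0 < j then e (j - 1) else 0) +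
        (if j + 1 < 2 * n then e j else 0)} : Multiset ℕ) :=
      map_eq_sum (Finset.range (2 * n)) _
    rw [h1, sum_range_two_mul]
    have h2 : ∑ i ∈ Finset.range n, (({4 + (if 0 < 2 * i then e (2 * i - 1) else 0) +
        (if 2 * i + 1 < 2 * n then e (2 * i) else 0)} : Multiset ℕ) +
        {4 + (if 0 < 2 * i + 1 then e (2 * i + 1 - 1) else 0) +
        (if 2 * i + 1 + 1 < 2 * n then e (2 * i + 1) else 0)}) =
        (∑ i ∈ Finset.range n, (({l i} : Multiset ℕ) + {r i})).map (fun x => M * x) := by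
      rw [← Multiset.coe_mapAddMonoidHom, map_sum]
      refine Finset.sum_congr rfl fun i hi => ?_
      rw [Finset.mem_range] at hi
      rw [hF0 i hi, hF1 i hi, Multiset.coe_mapAddMonoidHom, Multiset.map_add,
        Multiset.map_singleton, Multiset.map_singleton]
    rw [h2, hm, ← Multiset.coe_mapAddMonoidHom, map_sum]
    simp only [Multiset.coe_mapAddMonoidHom, Multiset.map_add, Multiset.map_singleton]
    rw [Finset.sum_add_distrib, ← map_eq_sum]
    congr 1
    rw [Finset.sum_const, Finset.card_univ, Fintype.card_fin, Multiset.nsmul_singleton]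
  have hbs : (Finset.univ.val.map (fun i => M * (K + a i)) + Multiset.replicate n (M * K) +
      Multiset.replicate 2 (M * X)).sum = 2 * (M * ∑ i ∈ Finset.range n, l i) + 2 * (M * X) := by
    have h1 : (Finset.univ.val.map (fun i => M * (K + a i))).sum = ∑ i, M * (K + a i) := rfl
    rw [Multiset.sum_add, Multiset.sum_add, h1, Multiset.sum_replicate, Multiset.sum_replicate,
      ← Finset.mul_sum, Finset.sum_add_distrib]
    have h2 : 2 * ∑ i ∈ Finset.range n, l i = 2 * n * K + ∑ i, a i := by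
      rw [← hlsum, Finset.sum_add_distrib, ← hrl]
      ring
    have h3 : 2 * (M * ∑ i ∈ Finset.range n, l i) = M * (2 * n * K + ∑ i, a i) := by
      rw [← h2]
      ring
    rw [h3]
    simp
    ring
  show _ = (Finset.univ.val.map (fun i => M * (K + a i)) + Multiset.replicate n (M * K) +
    Multiset.replicate 2 (M * X)) + Multiset.replicate ((Finset.univ.val.map
      (fun i => M * (K + a i)) + Multiset.replicate n (M * K) +
      Multiset.replicate 2 (M * X)).sum / 2 - 6 * n) 4
  rw [hbs, hmap, show 2 * n + (M * X - (4 * n - 1)) + (2 * n - 1) = M * X by omega,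
    show M * X - (4 * n - 1) + ∑ j ∈ Finset.range (2 * n - 1), (e j + 1) =
      (2 * (M * ∑ i ∈ Finset.range n, l i) + 2 * (M * X)) / 2 - 6 * n by omega]
  rw [add_comm (Multiset.replicate 2 (M * X))]

theorem sar : SarStmt := by
  intro n a hn S hS
  obtain ⟨y, e, h1, h2⟩ := sarG n (Kc a) (Mc n) ((2 * n + 1) * Kc a) a hn (by unfold Kc; omega)
    (by unfold Mc; nlinarith) (by
      have hK : 1 ≤ Kc a := by unfold Kc; omega
      have hM : 12 ≤ Mc n := by unfold Mc; nlinarith
      have h : 2 * n + 1 ≤ (2 * n + 1) * Kc a := Nat.le_mul_of_pos_right _ hK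
      nlinarith) S hS
  exact ⟨y, e, h1, h2⟩

end Pool.Agent.PDN.H15
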